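import Mathlib
import Pool.Agent.H418R3.BHAlg
import Pool.Agent.H418R3.Gauss
import Pool.Agent.Y343.BH.Iff
import Pool.Agent.Y343.BH.Stm
import Pool.Agent.Y343.BH.Sl2

/-!
# The centralizer of the meridian in the Brumfiel-Hilden algebra

The conjecture of Brumfiel and Hilden says that the image `Y` of the longitude in `H[π]` lies in
`H⁺[X, X⁻¹]`, `X` the image of the meridian (starting result `BrumfielHilden`).  Here it is
strengthened: for every knot `H⁺[X, X⁻¹]` is the whole centralizer of `X` in `H[π]` (so it is a
maximal commutative subalgebra, and `Y` lies in it because `Y` commutes with `X`).  The same holds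
in every quotient algebra of `H[π]`, over every ground ring containing `1/2`, for every finitely
generated group normally generated by one element `m`; and the finitely generated groups `π` with an
element `m` for which it holds in all quotient algebras are characterised: modulo the ideal
generated by `X - X⁻¹` every element of `π` is its own inverse.  A consequence for representations
in `SL₂(S)`, `S` any commutative ring containing `1/2`: the image of the longitude is
`α + β r(m)` with `α, β ∈ S`.

The proof at a maximal ideal `n` of `H⁺` containing all traces `t (g m) - t (g m⁻¹)` is new (and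
shorter): modulo `n` the element `δ = X - X⁻¹` has square zero and anticommutes with all
`g - g⁻¹`, so the two-sided ideal generated by `δ` is `A δ`; if it contains all `h - h⁻¹`, then these
annihilate `δ` and hence are scalar multiples of `δ`.
-/

namespace Pool.Agent.Results.MP_db0b5c_gt.MeridianCentralizer

open Pool.Agent.H418R3 Pool.Agent.Y343.BH

universe u v w

theorem result :
    Knots.{u} ∧ Characterisation.{u} ∧ GroundRings.{u, v, w} ∧ MatricesSL2.{u, v} ∧
      LongitudeSL2.{v} := by
  have hC : IsUnit (2 : ℂ) := IsUnit.mk0 _ two_ne_zero
  have main : GroundRings.{u, v, w} := by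
    intro k _ h2 π _ A _ _ ρ h m
    refine ⟨fun hfg hm => ?_, fun z hz g => sigma_mul_mem h h2 m g z hz⟩
    rcases hm with hm | hm
    · exact centralizer_eq h h2 m (selfInverse_of_normalClosure h h2 m hm)
    · exact centralizer_eq h h2 m hm
  refine ⟨?_, fun π _ _ m => char_iff π m, main,
    fun S _ h2 π _ _ m hm r z hz hc => sl2 h2 m hm r z hz hc, ?_⟩
  · intro D π _ e
    have hfg : Group.FG π := Group.fg_of_surjective (f := e.toMonoidHom) e.surjective
    have hn : Subgroup.normalClosure {e D.meridian} = ⊤ := by
      have h1 := Subgroup.map_normalClosure ({D.meridian} : Set D.KnotGroup) e.toMonoidHom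
        e.surjective
      rw [D.normalClosure_meridian, Subgroup.map_top_of_surjective _ e.surjective,
        Set.image_singleton] at h1
      exact h1.symm
    have h := centralizer_eq (traceAlgebra_bh π) hC (e D.meridian)
      (selfInverse_of_normalClosure (traceAlgebra_bh π) hC _ hn)
    refine ⟨h, ?_⟩
    have hl : bhOf π (e D.longitude) ∈ Subalgebra.centralizer ℂ {bhOf π (e D.meridian)} := by
      rw [Subalgebra.mem_centralizer_iff]
      rintro _ rfl
      rw [← map_mul (bhOf π), ← map_mul (bhOf π), (D.commute_longitude.map e).eq]
    rw [h] at hl
    exact hl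
  · intro S _ h2 D r
    refine sl2 h2 D.meridian D.normalClosure_meridian r _
      (Algebra.subset_adjoin ⟨D.longitude, rfl⟩) ?_
    have h1 := (D.commute_longitude.map r).eq
    have h3 := congrArg (fun x : Matrix.SpecialLinearGroup (Fin 2) S =>
      (x : Matrix (Fin 2) (Fin 2) S)) h1
    simp only [Matrix.SpecialLinearGroup.coe_mul] at h3
    exact h3.symm

end Pool.Agent.Results.MP_db0b5c_gt.MeridianCentralizer
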